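import Pool.Agent.H566R4.Stmts

/-!
The upper bound for the number of rational points, from the tasks.
-/

set_option autoImplicit false

namespace Pool.Agent.H566R4

open Polynomial Module

section
variable {k : Type} [Field k]

lemma fd_of_le {U : Submodule k k[X]} {n : ℕ} (h : U ≤ degreeLT k n) : FiniteDimensional k U := by
  have : FiniteDimensional k (degreeLT k n) :=
    LinearEquiv.finiteDimensional (degreeLTEquiv k n).symm
  exact Submodule.finiteDimensional_of_le h

lemma fr_degreeLT (n : ℕ) : finrank k (degreeLT k n) = n := by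
  rw [LinearEquiv.finrank_eq (degreeLTEquiv k n), finrank_fin_fun]

lemma fr_le {U V : Submodule k k[X]} {n : ℕ} (h : U ≤ V) (hV : V ≤ degreeLT k n) :
    finrank k U ≤ finrank k V := by
  have := fd_of_le hV
  exact Submodule.finrank_mono h

/-- Subspaces of multiples of a polynomial. -/
lemma fr_multiples {V : Submodule k k[X]} {d : ℕ} (hV : V ≤ degreeLT k (d + 1)) (P : k[X])
    (hP : P ≠ 0) (hm : P.natDegree ≤ d + 1) (h : ∀ f ∈ V, P ∣ f) :
    finrank k V + P.natDegree ≤ d + 1 := by
  have hle : V ≤ (degreeLT k (d + 1 - P.natDegree)).map (LinearMap.mulLeft k P) := by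
    intro f hf
    obtain ⟨g, hg⟩ := h f hf
    refine ⟨g, ?_, hg.symm⟩
    by_cases hg0 : g = 0
    · subst hg0; exact Submodule.zero_mem _
    have h1 := Polynomial.mem_degreeLT.1 (hV hf)
    rw [hg] at h1
    have h2 : (P * g) ≠ 0 := mul_ne_zero hP hg0
    rw [Polynomial.degree_eq_natDegree h2, Polynomial.natDegree_mul hP hg0] at h1
    have h3 : P.natDegree + g.natDegree < d + 1 := by exact_mod_cast h1
    rw [SetLike.mem_coe, Polynomial.mem_degreeLT, Polynomial.degree_eq_natDegree hg0]
    have : g.natDegree < d + 1 - P.natDegree := by omega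
    exact_mod_cast this
  have : FiniteDimensional k (degreeLT k (d + 1 - P.natDegree)) :=
    LinearEquiv.finiteDimensional (degreeLTEquiv k _).symm
  have h4 : finrank k V ≤ finrank k ((degreeLT k (d + 1 - P.natDegree)).map
      (LinearMap.mulLeft k P)) := Submodule.finrank_mono hle
  have h5 : finrank k ((degreeLT k (d + 1 - P.natDegree)).map (LinearMap.mulLeft k P)) ≤
      finrank k (degreeLT k (d + 1 - P.natDegree)) := Submodule.finrank_map_le _ _
  rw [fr_degreeLT] at h5
  omega

lemma step_ge (hGM : TaskGM) {U : ℕ → Submodule k k[X]} (h1 : ∀ n, U n ≤ degreeLT k (n + 1))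
    (h2 : ∀ n, U n ≤ U (n + 1)) (h3 : ∀ n, (U n).map (mX k) ≤ U (n + 1)) {n : ℕ}
    (hn : U n ≠ ⊥) : finrank k (U n) + 1 ≤ finrank k (U (n + 1)) := by
  have := fd_of_le (h1 n)
  exact (hGM k (U n) hn).1.trans (fr_le (sup_le (h2 n) (h3 n)) (h1 (n + 1)))

lemma step_ge_two (hGM : TaskGM) {U : ℕ → Submodule k k[X]} (h1 : ∀ n, U n ≤ degreeLT k (n + 1))
    (h2 : ∀ n, U n ≤ U (n + 1)) (h3 : ∀ n, (U n).map (mX k) ≤ U (n + 1)) {n : ℕ}
    (hn : U n ≠ ⊥) (hone : (1 : k[X]) ∈ U (n + 1)) (hX : (X : k[X]) ^ (n + 1) ∈ U (n + 1)) :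
    finrank k (U n) + 2 ≤ finrank k (U (n + 1)) ∨ finrank k (U (n + 1)) = n + 2 := by
  have := fd_of_le (h1 n)
  have := fd_of_le (h1 (n + 1))
  by_contra hcon
  push Not at hcon
  obtain ⟨hc1, hc2⟩ := hcon
  have hle : U n ⊔ (U n).map (mX k) ≤ U (n + 1) := sup_le (h2 n) (h3 n)
  have hge := (hGM k (U n) hn).1
  have hmono := fr_le hle (h1 (n + 1))
  have heq : U n ⊔ (U n).map (mX k) = U (n + 1) :=
    Submodule.eq_of_le_of_finrank_eq hle (by omega)
  obtain ⟨g, hg, hU⟩ := (hGM k (U n) hn).2 (by omega)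
  have key : ∀ f ∈ U (n + 1), ∃ h : k[X], h.degree < ((finrank k (U n) + 1 : ℕ) : WithBot ℕ) ∧
      f = g * h := by
    intro f hf
    rw [← heq] at hf
    obtain ⟨x, hx, y, hy, rfl⟩ := Submodule.mem_sup.1 hf
    obtain ⟨z, hz, rfl⟩ := hy
    rw [hU] at hx
    have hz' : z ∈ (degreeLT k (finrank k (U n))).map (LinearMap.mulLeft k g) := by
      rw [← hU]; exact hz
    obtain ⟨p, hp, rfl⟩ := hx
    obtain ⟨p', hp', rfl⟩ := hz'
    refine ⟨p + X * p', ?_, ?_⟩
    · have e1 : p.degree < ((finrank k (U n) : ℕ) : WithBot ℕ) := Polynomial.mem_degreeLT.1 hp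
      have e2 : p'.degree < ((finrank k (U n) : ℕ) : WithBot ℕ) := Polynomial.mem_degreeLT.1 hp'
      refine lt_of_le_of_lt (Polynomial.degree_add_le _ _) (max_lt ?_ ?_)
      · exact e1.trans (by exact_mod_cast Nat.lt_succ_self _)
      · rw [Polynomial.degree_mul, Polynomial.degree_X]
        by_cases hp0 : p' = 0
        · subst hp0; simp
        · rw [Polynomial.degree_eq_natDegree hp0] at e2 ⊢
          have : p'.natDegree < finrank k (U n) := by exact_mod_cast e2
          have e3 : 1 + p'.natDegree < finrank k (U n) + 1 := by omega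
          exact_mod_cast e3
    · simp only [LinearMap.mulLeft_apply, mX]
      ring
  obtain ⟨a, -, ha⟩ := key 1 hone
  obtain ⟨b, hb, hb2⟩ := key _ hX
  have hgu : IsUnit g := IsUnit.of_mul_eq_one a ha.symm
  have hg0 : g.natDegree = 0 := Polynomial.natDegree_eq_zero_of_isUnit hgu
  have hb0 : b ≠ 0 := by
    rintro rfl
    rw [mul_zero] at hb2
    exact pow_ne_zero _ Polynomial.X_ne_zero hb2
  have e4 := congrArg Polynomial.natDegree hb2
  rw [Polynomial.natDegree_X_pow, Polynomial.natDegree_mul hg hb0, hg0] at e4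
  rw [Polynomial.degree_eq_natDegree hb0] at hb
  have e5 : b.natDegree < finrank k (U n) + 1 := by exact_mod_cast hb
  have e6 : finrank k (U (n + 1)) ≤ n + 2 := by
    have := fr_le (h1 (n + 1)) le_rfl
    rwa [fr_degreeLT] at this
  omega

end

theorem core (hGM : TaskGM) (hF : TaskFilt) (hN : TaskNum) (hE : TaskExc) (hP : TaskProj)
    (k : Type) [Field k] [Fintype k] (d r κ : ℕ) (G : Fin r → MvPolynomial (Fin 3) k)
    (hd : 1 ≤ d) (hq : d + 2 ≤ Fintype.card k) (hr : 1 ≤ r) (hG : ∀ i, (G i).IsHomogeneous d)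
    (hli : LinearIndependent k G) (hκ : (κ + 1).choose 2 < r) :
    (κ < d → {x : Projectivization k (Fin 3 → k) |
        ∀ i, MvPolynomial.eval x.rep (G i) = 0}.ncard + r ≤
          (d - κ) * Fintype.card k + 1 + (κ + 2).choose 2) ∧
      (d ≤ κ → {x : Projectivization k (Fin 3 → k) |
        ∀ i, MvPolynomial.eval x.rep (G i) = 0}.ncard + r ≤ (d + 2).choose 2) := by
  obtain ⟨W, A, B, hWd, hWr, hWA, hB, ⟨f0, hf0, hf0d⟩, hcard⟩ :=
    hP k d r G hd (by omega) hr hG hli
  obtain ⟨U, hU1, hU2, hU3, hone, hXq, hsum, hrank, htop⟩ := hF k A d W hd hWd hWA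
  set q := Fintype.card k with hqdef
  set Wt := W.map (top k d) with hWt
  have hmono : ∀ m n, m ≤ n → U m ≤ U n := fun m n h => monotone_nat_of_le_succ hU2 h
  have hfr : ∀ n, finrank k (U n) ≤ n + 1 := by
    intro n
    have := fr_le (hU1 n) le_rfl
    rwa [fr_degreeLT] at this
  have hf0ne : f0 ≠ 0 := by
    rintro rfl
    rw [Polynomial.natDegree_zero] at hf0d
    omega
  have hUd : U d ≠ ⊥ := by
    intro h
    have := htop hf0
    rw [h] at this
    exact hf0ne ((Submodule.mem_bot k).1 this)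
  have hUn : ∀ n, d ≤ n → U n ≠ ⊥ := by
    intro n hn h
    apply hUd
    have := hmono d n hn
    rw [h] at this
    exact le_bot_iff.1 this
  have hWtd : Wt ≤ degreeLT k (d + 1) := htop.trans (hU1 d)
  have hWtfr : finrank k Wt ≤ d + 1 := by
    have := fr_le hWtd le_rfl
    rwa [fr_degreeLT] at this
  have hBw : B.card + finrank k Wt ≤ d + 1 := by
    set P : k[X] := ∏ c ∈ B, (X - C c) with hPdef
    have hPd : P.natDegree = B.card := by
      rw [hPdef, Polynomial.natDegree_prod_of_monic _ _ (fun c _ => monic_X_sub_C c)]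
      simp
    have hP0 : P ≠ 0 := (Polynomial.monic_prod_of_monic _ _ (fun c _ => monic_X_sub_C c)).ne_zero
    have hdiv : ∀ f ∈ Wt, P ∣ f := by
      intro f hf
      refine Finset.prod_dvd_of_coprime ?_ ?_
      · intro x _ y _ hxy
        exact Polynomial.isCoprime_X_sub_C_of_isUnit_sub (sub_ne_zero.2 hxy).isUnit
      · intro c hc
        exact Polynomial.dvd_iff_isRoot.2 ((hB c).1 hc f hf)
    have hPle : P.natDegree ≤ d := by
      rw [← hf0d]
      exact Polynomial.natDegree_le_of_dvd (hdiv f0 hf0) hf0ne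
    have := fr_multiples hWtd P hP0 (by omega) hdiv
    omega
  have hWtU : finrank k Wt ≤ finrank k (U d) := fr_le htop (hU1 d)
  have hXpow : ∀ n, q ≤ n → (X : k[X]) ^ n ∈ U n := by
    intro n hn
    induction n, hn using Nat.le_induction with
    | base => exact hXq
    | succ n hn ih =>
      have := hU3 n (Submodule.mem_map_of_mem ih)
      simpa [mX, pow_succ'] using this
  have hmain := hN q d r (d + 1 - finrank k Wt) A.card B.card κ
    (fun n => n + 1 - finrank k (U n)) hd hq hr (fun n => Nat.sub_le _ _)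
    (by
      intro n hn
      have h1 : U n ≠ ⊥ := by
        intro h
        change n + 1 - finrank k (U n) ≤ n at hn
        rw [h, finrank_bot] at hn
        omega
      have h2 := step_ge hGM hU1 hU2 hU3 h1
      show n + 1 + 1 - finrank k (U (n + 1)) ≤ n + 1 - finrank k (U n)
      omega)
    (by
      show d + 1 - finrank k (U d) ≤ d
      have := fd_of_le (hU1 d)
      have : 1 ≤ finrank k (U d) := Submodule.one_le_finrank_iff.2 hUd
      omega)
    (by
      intro n hn
      show n + 1 + 1 - finrank k (U (n + 1)) ≤ n + 1 - finrank k (U n) - 1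
      rcases step_ge_two hGM hU1 hU2 hU3 (hUn n (by omega)) (hmono q (n + 1) hn hone)
        (hXpow (n + 1) hn) with h | h <;> omega)
    hsum
    (by
      have h1 : ∑ n ∈ Finset.range d, (n + 1 - finrank k (U n)) +
          ∑ n ∈ Finset.range d, finrank k (U n) = ∑ n ∈ Finset.range d, (n + 1) := by
        rw [← Finset.sum_add_distrib]
        exact Finset.sum_congr rfl fun n _ => Nat.sub_add_cancel (hfr n)
      have h2 : ∑ n ∈ Finset.range d, (n + 1) + (d + 1) = (d + 2).choose 2 := by
        have h3 : ∑ n ∈ Finset.range (d + 2), n = (d + 2).choose 2 := by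
          rw [Finset.sum_range_id, Nat.choose_two_right]
        rw [← h3, Finset.sum_range_succ, Finset.sum_range_succ']
        simp
      show r + ∑ n ∈ Finset.range d, (n + 1 - finrank k (U n)) + (d + 1 - finrank k Wt) ≤ _
      rw [hWr] at hrank
      omega)
    (by omega) (by show d + 1 - finrank k (U d) ≤ _; omega)
    (by
      intro h1 h2 h3
      change q - 2 + 1 - finrank k (U (q - 2)) = d + 1 - finrank k (U d) at h1
      change q - 1 + 1 - finrank k (U (q - 1)) = d + 1 - finrank k (U d) at h2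
      change q + 1 - finrank k (U q) + 1 = d + 1 - finrank k (U d) at h3
      show B.card + (d + 1 - finrank k (U d)) ≤ d + 1 - finrank k Wt + 1
      have h4 := hfr (q - 2)
      have h5 := hfr (q - 1)
      have h6 := hfr q
      have h7 := hfr d
      have := fd_of_le (hU1 d)
      have h8 : 1 ≤ finrank k (U d) := Submodule.one_le_finrank_iff.2 hUd
      by_cases hb : d + 1 - finrank k (U d) = 0
      · omega
      · have h9 := hE k d (d + 1 - finrank k (U d)) U Wt B hd hq (by omega) (by omega) hU1 hU2 hU3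
          hone hXq (by rw [← hqdef]; omega) (by rw [← hqdef]; omega) (by rw [← hqdef]; omega) htop
          ⟨f0, hf0, hf0d⟩ hB
        omega)
    hκ
  rw [hcard]
  exact hmain

end Pool.Agent.H566R4
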