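import Pool.Agent.H566R4.Stmts

set_option autoImplicit false

namespace Pool.Agent.H566R4

open Polynomial Module

section
variable {k : Type} [Field k]

lemma mX_inj : Function.Injective (mX k) := by
  intro a b h
  have h' : (X : k[X]) * a = X * b := h
  exact mul_left_cancel₀ Polynomial.X_ne_zero h'

lemma gm_first (U : Submodule k k[X]) [FiniteDimensional k U] (hU : U ≠ ⊥) :
    finrank k U + 1 ≤ finrank k ↥(U ⊔ U.map (mX k)) := by
  haveI : FiniteDimensional k (U.map (mX k)) := inferInstance
  haveI : FiniteDimensional k ↥(U ⊔ U.map (mX k)) := Submodule.finiteDimensional_sup _ _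
  have hlt : U < U ⊔ U.map (mX k) := by
    refine lt_of_le_of_ne le_sup_left ?_
    intro heq
    have hle : U.map (mX k) ≤ U := by
      conv_rhs => rw [heq]
      exact le_sup_right
    obtain ⟨f, hf, hf0⟩ := Submodule.exists_mem_ne_zero_of_ne_bot hU
    have hall : ∀ n : ℕ, (X : k[X]) ^ n * f ∈ U := by
      intro n
      induction n with
      | zero => simpa using hf
      | succ n ih =>
        have := hle (Submodule.mem_map_of_mem ih)
        rw [pow_succ', mul_assoc]
        exact this
    have hli : LinearIndependent k (fun n : ℕ => (⟨(X : k[X]) ^ n * f, hall n⟩ : U)) := by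
      rw [← LinearMap.linearIndependent_iff_of_injOn (f := U.subtype)
        (Function.Injective.injOn (Submodule.subtype_injective U))]
      have : (U.subtype ∘ fun n : ℕ => (⟨(X : k[X]) ^ n * f, hall n⟩ : U)) =
          (LinearMap.mulRight k f) ∘ fun n : ℕ => (X : k[X]) ^ n := by
        funext n; rfl
      rw [this]
      have h1 : LinearIndependent k (fun n : ℕ => (X : k[X]) ^ n) := by
        have := (Polynomial.basisMonomials k).linearIndependent
        convert this using 1
        funext n
        simp [Polynomial.X_pow_eq_monomial]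
      refine h1.map' _ ?_
      rw [LinearMap.ker_eq_bot]
      intro a b h
      exact mul_right_cancel₀ hf0 h
    exact not_finite_iff_infinite.2 inferInstance (hli.finite)
  exact Submodule.finrank_lt_finrank_of_lt hlt

lemma fr_map_mX (U : Submodule k k[X]) [FiniteDimensional k U] :
    finrank k (U.map (mX k)) = finrank k U :=
  (Submodule.equivMapOfInjective (mX k) mX_inj U).finrank_eq.symm

lemma sup_le_map (U : Submodule k k[X]) (g : k[X]) (n : ℕ)
    (h : U = (degreeLT k n).map (LinearMap.mulLeft k g)) :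
    U ⊔ U.map (mX k) ≤ (degreeLT k (n + 1)).map (LinearMap.mulLeft k g) := by
  refine sup_le ?_ ?_
  · rw [h]
    exact Submodule.map_mono (Polynomial.degreeLT_mono (Nat.le_succ n))
  · rw [h]
    rintro _ ⟨_, ⟨p, hp, rfl⟩, rfl⟩
    refine ⟨X * p, ?_, ?_⟩
    · have e2 : p.degree < ((n : ℕ) : WithBot ℕ) := Polynomial.mem_degreeLT.1 hp
      rw [SetLike.mem_coe, Polynomial.mem_degreeLT, Polynomial.degree_mul, Polynomial.degree_X]
      by_cases hp0 : p = 0
      · subst hp0; simp
      · rw [Polynomial.degree_eq_natDegree hp0] at e2 ⊢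
        have : p.natDegree < n := by exact_mod_cast e2
        have e3 : 1 + p.natDegree < n + 1 := by omega
        exact_mod_cast e3
    · simp only [LinearMap.mulLeft_apply, mX]
      ring

lemma gm_second : ∀ (n : ℕ) (U : Submodule k k[X]) [FiniteDimensional k U],
    finrank k U = n + 1 → finrank k ↥(U ⊔ U.map (mX k)) ≤ n + 2 →
    ∃ g : k[X], g ≠ 0 ∧ U = (degreeLT k (n + 1)).map (LinearMap.mulLeft k g) := by
  intro n
  induction n with
  | zero =>
    intro U _ h1 _
    obtain ⟨v, hv, hall⟩ := finrank_eq_one_iff'.1 h1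
    refine ⟨v, fun h => hv (Subtype.ext h), ?_⟩
    ext f
    constructor
    · intro hf
      obtain ⟨c, hc⟩ := hall ⟨f, hf⟩
      have hc' : c • (v : k[X]) = f := congrArg Subtype.val hc
      refine ⟨C c, ?_, ?_⟩
      · rw [SetLike.mem_coe, Polynomial.mem_degreeLT]
        exact lt_of_le_of_lt Polynomial.degree_C_le (by norm_num)
      · rw [← hc', LinearMap.mulLeft_apply, Polynomial.smul_eq_C_mul, mul_comm]
    · rintro ⟨p, hp, rfl⟩
      have e : p.degree < ((1 : ℕ) : WithBot ℕ) := by
        simpa using Polynomial.mem_degreeLT.1 hp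
      have e1 : p.degree ≤ 0 := Nat.WithBot.lt_one_iff_le_zero.1 (by exact_mod_cast e)
      rw [Polynomial.eq_C_of_degree_le_zero e1, LinearMap.mulLeft_apply, mul_comm,
        ← Polynomial.smul_eq_C_mul]
      exact U.smul_mem _ v.2
  | succ n ih =>
    intro U _ h1 h2
    set U1 : Submodule k k[X] := U ⊓ U.comap (mX k) with hU1
    haveI : FiniteDimensional k U1 := Submodule.finiteDimensional_inf_left _ _
    have hmap : U1.map (mX k) = U ⊓ U.map (mX k) := by
      ext v
      constructor
      · rintro ⟨u, ⟨hu1, hu2⟩, rfl⟩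
        exact ⟨hu2, ⟨u, hu1, rfl⟩⟩
      · rintro ⟨hv, ⟨u, hu, rfl⟩⟩
        exact ⟨u, ⟨hu, hv⟩, rfl⟩
    have e1 := fr_map_mX U1
    have e2 := fr_map_mX U
    have e3 := Submodule.finrank_sup_add_finrank_inf_eq U (U.map (mX k))
    rw [← hmap, e1, e2] at e3
    have hle : U1 ⊔ U1.map (mX k) ≤ U :=
      sup_le inf_le_left (by rw [hmap]; exact inf_le_left)
    have hU1ne : U1 ≠ ⊥ := by
      rw [← Submodule.one_le_finrank_iff]
      omega
    have e4 := gm_first U1 hU1ne
    have e5 : finrank k ↥(U1 ⊔ U1.map (mX k)) ≤ finrank k U := Submodule.finrank_mono hle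
    obtain ⟨g, hg, hgU⟩ := ih U1 (by omega) (by omega)
    refine ⟨g, hg, ?_⟩
    have heq : U1 ⊔ U1.map (mX k) = U := Submodule.eq_of_le_of_finrank_eq hle (by omega)
    have hle2 : U ≤ (degreeLT k (n + 1 + 1)).map (LinearMap.mulLeft k g) := by
      rw [← heq]
      exact sup_le_map U1 g (n + 1) hgU
    haveI : FiniteDimensional k (degreeLT k (n + 1 + 1)) :=
      LinearEquiv.finiteDimensional (degreeLTEquiv k _).symm
    refine Submodule.eq_of_le_of_finrank_le hle2 ?_
    refine (Submodule.finrank_map_le _ _).trans ?_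
    rw [LinearEquiv.finrank_eq (degreeLTEquiv k _), finrank_fin_fun, h1]

end

theorem taskGM : TaskGM := by
  intro k _ U _ hU
  refine ⟨gm_first U hU, fun h => ?_⟩
  have h1 : 1 ≤ finrank k U := Submodule.one_le_finrank_iff.2 hU
  obtain ⟨n, hn⟩ : ∃ n, finrank k U = n + 1 := ⟨finrank k U - 1, by omega⟩
  rw [hn] at h ⊢
  exact gm_second n U hn h

end Pool.Agent.H566R4
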