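import Pool.Agent.H566R4.FinalB
import Pool.Agent.H566R4.GM
import Pool.Agent.H544R3.BOG_Filt
import Pool.Agent.H588R3.BOG_Num
import Pool.Agent.H511R3.BOG.TaskCons
import Pool.Agent.H352.BOG_TaskExc
import Pool.Agent.H99R3.BOG.TaskProj

set_option autoImplicit false

namespace Pool.Agent.H566R4

theorem final (k : Type) [Field k] [Fintype k] (d r : ℕ) (hd : 1 ≤ d)
    (hq : d + 2 ≤ Fintype.card k) (hr : 1 ≤ r) (hr2 : r ≤ (d + 2).choose 2) :
    ∃ κ N : ℕ, κ ≤ d ∧ (κ + 1).choose 2 < r ∧ r ≤ (κ + 2).choose 2 ∧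
      (κ < d → N = (d - κ) * Fintype.card k + 1 + ((κ + 2).choose 2 - r)) ∧
      (κ = d → N = (d + 2).choose 2 - r) ∧
      (∀ G : Fin r → MvPolynomial (Fin 3) k, (∀ i, (G i).IsHomogeneous d) →
        LinearIndependent k G → {x : Projectivization k (Fin 3 → k) |
          ∀ i, MvPolynomial.eval x.rep (G i) = 0}.ncard ≤ N) ∧
      ∃ F : Fin r → MvPolynomial (Fin 3) k, (∀ i, (F i).IsHomogeneous d) ∧
        LinearIndependent k F ∧ {x : Projectivization k (Fin 3 → k) |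
          ∀ i, MvPolynomial.eval x.rep (F i) = 0}.ncard = N ∧
        ∃ L Q : Finset (Fin 3 → k), (∀ l ∈ L, l ≠ 0) ∧ (∀ p ∈ Q, p ≠ 0) ∧
          ∀ x : Fin 3 → AlgebraicClosure k, x ≠ 0 →
            ((∀ i, MvPolynomial.aeval x (F i) = 0) ↔
              ((∃ l ∈ L, ∑ j, algebraMap k (AlgebraicClosure k) (l j) * x j = 0) ∨
                ∃ p ∈ Q, ∃ t : AlgebraicClosure k, ∀ j, x j = t * algebraMap k _ (p j))) :=
  finalB taskGM Pool.Agent.H544R3.Bog.taskFilt Pool.Agent.H588R3.BOG.taskNum (Pool.Agent.H352.BOG.taskExc taskGM)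
    Pool.Agent.H99R3.BOG.taskProj Pool.Agent.H511R3.BOG.taskCons k d r hd hq hr hr2

end Pool.Agent.H566R4
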