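import Pool.Agent.H566R4.Core

set_option autoImplicit false

namespace Pool.Agent.H566R4

lemma exists_kappa (d r : ℕ) (hr : 1 ≤ r) (hr2 : r ≤ (d + 2).choose 2) :
    ∃ κ, κ ≤ d ∧ (κ + 1).choose 2 < r ∧ r ≤ (κ + 2).choose 2 := by
  classical
  have hex : ∃ κ, r ≤ (κ + 2).choose 2 := ⟨d, hr2⟩
  refine ⟨Nat.find hex, Nat.find_min' hex hr2, ?_, Nat.find_spec hex⟩
  rcases Nat.eq_zero_or_pos (Nat.find hex) with h | h
  · rw [h]; simp; omega
  · obtain ⟨m, hm⟩ := Nat.exists_eq_succ_of_ne_zero h.ne'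
    have h1 : m < Nat.find hex := by omega
    have h2 := Nat.find_min hex h1
    rw [hm]
    push Not at h2
    exact h2

theorem finalB (hGM : TaskGM) (hF : TaskFilt) (hN : TaskNum) (hE : TaskExc) (hP : TaskProj)
    (hC : TaskCons) (k : Type) [Field k] [Fintype k] (d r : ℕ) (hd : 1 ≤ d)
    (hq : d + 2 ≤ Fintype.card k) (hr : 1 ≤ r) (hr2 : r ≤ (d + 2).choose 2) :
    ∃ κ N : ℕ, κ ≤ d ∧ (κ + 1).choose 2 < r ∧ r ≤ (κ + 2).choose 2 ∧
      (κ < d → N = (d - κ) * Fintype.card k + 1 + ((κ + 2).choose 2 - r)) ∧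
      (κ = d → N = (d + 2).choose 2 - r) ∧
      (∀ G : Fin r → MvPolynomial (Fin 3) k, (∀ i, (G i).IsHomogeneous d) →
        LinearIndependent k G → {x : Projectivization k (Fin 3 → k) |
          ∀ i, MvPolynomial.eval x.rep (G i) = 0}.ncard ≤ N) ∧
      ∃ F : Fin r → MvPolynomial (Fin 3) k, (∀ i, (F i).IsHomogeneous d) ∧
        LinearIndependent k F ∧ {x : Projectivization k (Fin 3 → k) |
          ∀ i, MvPolynomial.eval x.rep (F i) = 0}.ncard = N ∧
        ∃ L Q : Finset (Fin 3 → k), (∀ l ∈ L, l ≠ 0) ∧ (∀ p ∈ Q, p ≠ 0) ∧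
          ∀ x : Fin 3 → AlgebraicClosure k, x ≠ 0 →
            ((∀ i, MvPolynomial.aeval x (F i) = 0) ↔
              ((∃ l ∈ L, ∑ j, algebraMap k (AlgebraicClosure k) (l j) * x j = 0) ∨
                ∃ p ∈ Q, ∃ t : AlgebraicClosure k, ∀ j, x j = t * algebraMap k _ (p j))) := by
  obtain ⟨κ, hκ, h1, h2⟩ := exists_kappa d r hr hr2
  obtain ⟨F, hF1, hF2, hF3, hF4, hF5⟩ := hC k d r κ hd (by omega) hκ h1 h2
  refine ⟨κ, if κ < d then (d - κ) * Fintype.card k + 1 + ((κ + 2).choose 2 - r)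
    else (d + 2).choose 2 - r, hκ, h1, h2, fun h => if_pos h, fun h => if_neg (by omega), ?_,
    F, hF1, hF2, ?_, hF5⟩
  · intro G hG1 hG2
    obtain ⟨c1, c2⟩ := core hGM hF hN hE hP k d r κ G hd hq hr hG1 hG2 h1
    split_ifs with h
    · have := c1 h
      omega
    · have := c2 (by omega)
      omega
  · obtain ⟨c1, c2⟩ := core hGM hF hN hE hP k d r κ F hd hq hr hF1 hF2 h1
    split_ifs with h
    · have e1 := c1 h
      have e2 := hF3 h
      omega
    · have h' : κ = d := by omega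
      have e1 := c2 (by omega)
      have e2 := hF4 h'
      omega

theorem finalA (hGM : TaskGM) (hF : TaskFilt) (hN : TaskNum) (hE : TaskExc) (hP : TaskProj)
    (k : Type) [Field k] [Fintype k] (d r : ℕ) (hd : 1 ≤ d)
    (hq : d + 2 ≤ Fintype.card k) (hr : 1 ≤ r) (hr2 : r ≤ (d + 2).choose 2) :
    ∃ κ N : ℕ, κ ≤ d ∧ (κ + 1).choose 2 < r ∧ r ≤ (κ + 2).choose 2 ∧
      (κ < d → N = (d - κ) * Fintype.card k + 1 + ((κ + 2).choose 2 - r)) ∧
      (κ = d → N = (d + 2).choose 2 - r) ∧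
      (∀ G : Fin r → MvPolynomial (Fin 3) k, (∀ i, (G i).IsHomogeneous d) →
        LinearIndependent k G → {x : Projectivization k (Fin 3 → k) |
          ∀ i, MvPolynomial.eval x.rep (G i) = 0}.ncard ≤ N) := by
  obtain ⟨κ, hκ, h1, h2⟩ := exists_kappa d r hr hr2
  refine ⟨κ, if κ < d then (d - κ) * Fintype.card k + 1 + ((κ + 2).choose 2 - r)
    else (d + 2).choose 2 - r, hκ, h1, h2, fun h => if_pos h, fun h => if_neg (by omega), ?_⟩
  · intro G hG1 hG2
    obtain ⟨c1, c2⟩ := core hGM hF hN hE hP k d r κ G hd hq hr hG1 hG2 h1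
    split_ifs with h
    · have := c1 h
      omega
    · have := c2 (by omega)
      omega

end Pool.Agent.H566R4
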