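import Mathlib

/-!
Statements for the plane case of the conjecture of Boguslavsky (problem MP_0b0414_ag): the maximal
number of rational points of the zero set of `r` independent forms of degree `d` in the plane.
-/

set_option autoImplicit false

namespace Pool.Agent.H566R4

open Polynomial Module

/-- Multiplication by the variable. -/
noncomputable def mX (k : Type) [Field k] : k[X] →ₗ[k] k[X] := LinearMap.mulLeft k X

/-- The part of degree `n` of a polynomial in two variables, as a polynomial in one variable: the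
coefficient of `x ^ i y ^ (n - i)` becomes the coefficient of `X ^ i`. -/
noncomputable def top (k : Type) [Field k] (n : ℕ) : MvPolynomial (Fin 2) k →ₗ[k] k[X] where
  toFun f := ∑ i ∈ Finset.range (n + 1),
    Polynomial.monomial i (f.coeff (Finsupp.single 0 i + Finsupp.single 1 (n - i)))
  map_add' f g := by simp [Finset.sum_add_distrib]
  map_smul' c f := by simp [Finset.smul_sum, Polynomial.smul_monomial]

/-- Growth of a space of polynomials in one variable. -/
def TaskGM : Prop := ∀ (k : Type) [Field k] (U : Submodule k k[X]) [FiniteDimensional k U],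
  U ≠ ⊥ → finrank k U + 1 ≤ finrank k ↥(U ⊔ U.map (mX k)) ∧
    (finrank k ↥(U ⊔ U.map (mX k)) ≤ finrank k U + 1 →
      ∃ g : k[X], g ≠ 0 ∧ U = (degreeLT k (finrank k U)).map (LinearMap.mulLeft k g))

/-- The filtration by degree of the functions on a finite set `A` of the affine plane.  Take
`U n = {top n f | f.totalDegree ≤ n, f = 0 on A}`. -/
def TaskFilt : Prop := ∀ (k : Type) [Field k] [Fintype k] (A : Finset (k × k)) (d : ℕ)
  (W : Submodule k (MvPolynomial (Fin 2) k)), 1 ≤ d → (∀ f ∈ W, f.totalDegree ≤ d) →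
  (∀ f ∈ W, ∀ a ∈ A, MvPolynomial.eval ![a.1, a.2] f = 0) →
  ∃ U : ℕ → Submodule k k[X], (∀ n, U n ≤ degreeLT k (n + 1)) ∧ (∀ n, U n ≤ U (n + 1)) ∧
    (∀ n, (U n).map (mX k) ≤ U (n + 1)) ∧ (1 : k[X]) ∈ U (Fintype.card k) ∧
    (X : k[X]) ^ (Fintype.card k) ∈ U (Fintype.card k) ∧
    (∃ N₀ : ℕ, ∀ N ≥ N₀, ∑ n ∈ Finset.range (N + 1), (n + 1 - finrank k (U n)) = A.card) ∧
    finrank k W ≤ (∑ n ∈ Finset.range d, finrank k (U n)) + finrank k (W.map (top k d)) ∧
    W.map (top k d) ≤ U d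

/-- Arithmetic of the sequence `a n = n + 1 - dim U n`. -/
def TaskNum : Prop := ∀ (q d r w A B κ : ℕ) (a : ℕ → ℕ), 1 ≤ d → d + 2 ≤ q → 1 ≤ r →
  (∀ n, a n ≤ n + 1) → (∀ n, a n ≤ n → a (n + 1) ≤ a n) → a d ≤ d →
  (∀ n, q ≤ n + 1 → a (n + 1) ≤ a n - 1) →
  (∃ N₀ : ℕ, ∀ N ≥ N₀, ∑ n ∈ Finset.range (N + 1), a n = A) →
  r + (∑ n ∈ Finset.range d, a n) + w ≤ (d + 2).choose 2 → B ≤ w → a d ≤ w →
  (a (q - 2) = a d → a (q - 1) = a d → a q + 1 = a d → B + a d ≤ w + 1) →
  (κ + 1).choose 2 < r →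
  (κ < d → A + B + r ≤ (d - κ) * q + 1 + (κ + 2).choose 2) ∧
    (d ≤ κ → A + B + r ≤ (d + 2).choose 2)

/-- The exceptional case. -/
def TaskExc : Prop := ∀ (k : Type) [Field k] [Fintype k] (d b : ℕ) (U : ℕ → Submodule k k[X])
  (Wt : Submodule k k[X]) (B : Finset k), 1 ≤ d → d + 2 ≤ Fintype.card k → 1 ≤ b →
  b ≤ d →
  (∀ n, U n ≤ degreeLT k (n + 1)) → (∀ n, U n ≤ U (n + 1)) →
  (∀ n, (U n).map (mX k) ≤ U (n + 1)) → (1 : k[X]) ∈ U (Fintype.card k) →
  (X : k[X]) ^ (Fintype.card k) ∈ U (Fintype.card k) →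
  finrank k (U (Fintype.card k - 2)) + b = Fintype.card k - 1 →
  finrank k (U (Fintype.card k - 1)) + b = Fintype.card k →
  finrank k (U (Fintype.card k)) + b = Fintype.card k + 2 →
  Wt ≤ U d → (∃ f ∈ Wt, f.natDegree = d) → (∀ c, c ∈ B ↔ ∀ f ∈ Wt, f.eval c = 0) →
  finrank k Wt + B.card + b ≤ d + 2

/-- From forms in three variables to polynomials in two variables. Choose coordinates such that not
all forms vanish at `(1 : 0 : 0)`. -/
def TaskProj : Prop := ∀ (k : Type) [Field k] [Fintype k] (d r : ℕ)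
  (G : Fin r → MvPolynomial (Fin 3) k), 1 ≤ d → d < Fintype.card k → 1 ≤ r →
  (∀ i, (G i).IsHomogeneous d) → LinearIndependent k G →
  ∃ (W : Submodule k (MvPolynomial (Fin 2) k)) (A : Finset (k × k)) (B : Finset k),
    (∀ f ∈ W, f.totalDegree ≤ d) ∧ finrank k W = r ∧
    (∀ f ∈ W, ∀ a ∈ A, MvPolynomial.eval ![a.1, a.2] f = 0) ∧
    (∀ c, c ∈ B ↔ ∀ f ∈ W.map (top k d), f.eval c = 0) ∧
    (∃ f ∈ W.map (top k d), f.natDegree = d) ∧
    {x : Projectivization k (Fin 3 → k) | ∀ i, MvPolynomial.eval x.rep (G i) = 0}.ncard =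
      A.card + B.card

/-- The maximal sets: `d - κ` lines through a point and some points outside of the lines. With
`L i = x 1 - α i * x 2` and the points `(β j : 1 : 0)`, `j < (κ + 2).choose 2 - r ≤ κ`, take a basis
of the space of the forms `(∏ L i) * h` of degree `d` where `h` vanishes at the points. -/
def TaskCons : Prop := ∀ (k : Type) [Field k] [Fintype k] (d r κ : ℕ), 1 ≤ d →
  d < Fintype.card k → κ ≤ d → (κ + 1).choose 2 < r → r ≤ (κ + 2).choose 2 →
  ∃ F : Fin r → MvPolynomial (Fin 3) k, (∀ i, (F i).IsHomogeneous d) ∧ LinearIndependent k F ∧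
    (κ < d → (d - κ) * Fintype.card k + 1 + (κ + 2).choose 2 ≤ r +
      {x : Projectivization k (Fin 3 → k) | ∀ i, MvPolynomial.eval x.rep (F i) = 0}.ncard) ∧
    (κ = d → (d + 2).choose 2 ≤ r +
      {x : Projectivization k (Fin 3 → k) | ∀ i, MvPolynomial.eval x.rep (F i) = 0}.ncard) ∧
    ∃ (L Q : Finset (Fin 3 → k)), (∀ l ∈ L, l ≠ 0) ∧ (∀ p ∈ Q, p ≠ 0) ∧
      ∀ x : Fin 3 → AlgebraicClosure k, x ≠ 0 →
        ((∀ i, MvPolynomial.aeval x (F i) = 0) ↔
          ((∃ l ∈ L, ∑ j, algebraMap k (AlgebraicClosure k) (l j) * x j = 0) ∨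
            ∃ p ∈ Q, ∃ t : AlgebraicClosure k, ∀ j, x j = t * algebraMap k _ (p j)))

end Pool.Agent.H566R4
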